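import Mathlib

/-!
# A minimax statement: from good cuts for all weights to a good random cut

Piece PT2 of the MP_715b63_an development.
-/

namespace Pool.Agent.KW

/-- PT2: a minimax statement -/
theorem exists_distribution {Z : Type*} [Fintype Z] {e : Type*} [Fintype e] (cut : Z → e → Prop)
    [∀ z x, Decidable (cut z x)] (δ : ℝ)
    (h : ∀ w : e → ℝ, (∀ x, 0 ≤ w x) →
      ∃ z, ∑ x ∈ Finset.univ.filter (fun x => cut z x), w x ≤ δ * ∑ x, w x) :
    ∃ p : Z → ℝ, (∀ z, 0 ≤ p z) ∧ ∑ z, p z = 1 ∧
      ∀ x, ∑ z ∈ Finset.univ.filter (fun z => cut z x), p z ≤ δ := by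
  classical
  set u : Z → e → ℝ := fun z x => if cut z x then 1 else 0 with hu
  set L : (Z → ℝ) →ₗ[ℝ] (e → ℝ) := Fintype.linearCombination ℝ u with hL
  have hLapp : ∀ p x, L p x = ∑ z ∈ Finset.univ.filter (fun z => cut z x), p z := by
    intro p x
    simp only [hL, Fintype.linearCombination_apply, Finset.sum_apply, Pi.smul_apply, hu,
      smul_eq_mul, mul_ite, mul_one, mul_zero, Finset.sum_filter]
  set K : Set (e → ℝ) := L '' stdSimplex ℝ Z with hK
  set T : Set (e → ℝ) := {v | ∀ x, v x ≤ δ} with hT
  have hKc : IsCompact K := (isCompact_stdSimplex ℝ Z).image L.continuous_of_finiteDimensional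
  have hKconv : Convex ℝ K := (convex_stdSimplex ℝ Z).linear_image L
  have hTconv : Convex ℝ T := by
    intro a ha b hb s t hs ht hst x
    have h1 := mul_le_mul_of_nonneg_left (ha x) hs
    have h2 := mul_le_mul_of_nonneg_left (hb x) ht
    simp only [Pi.add_apply, Pi.smul_apply, smul_eq_mul]
    calc s * a x + t * b x ≤ s * δ + t * δ := add_le_add h1 h2
      _ = δ := by rw [← add_mul, hst, one_mul]
  have hTcl : IsClosed T := by
    have : T = ⋂ x, {v : e → ℝ | v x ≤ δ} := by
      ext v; simp [hT]
    rw [this]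
    exact isClosed_iInter fun x => isClosed_le (continuous_apply x) continuous_const
  by_cases hdis : Disjoint K T
  · exfalso
    obtain ⟨f, a, b, hfa, hab, hfb⟩ := geometric_hahn_banach_compact_closed hKconv hKc hTconv hTcl
      hdis
    have hexp : ∀ v : e → ℝ, f v = ∑ x, v x * f (Pi.single x 1) := by
      intro v
      have hv : v = ∑ x, v x • (Pi.single x (1 : ℝ) : e → ℝ) := by
        ext y
        simp [Finset.sum_apply, Pi.single_apply]
      conv_lhs => rw [hv]
      rw [map_sum]
      simp [map_smul]
    set w : e → ℝ := fun x => - f (Pi.single x 1) with hw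
    have hw0 : ∀ x, 0 ≤ w x := by
      intro x
      by_contra hneg
      push Not at hneg
      -- `δ·1 - n • e_x ∈ T`
      have hmem : ∀ t : ℝ, 0 ≤ t → b < f (fun _ => δ) + t * w x := by
        intro t ht
        have h1 : ((fun _ => δ) - t • (Pi.single x (1 : ℝ)) : e → ℝ) ∈ T := by
          intro y
          simp only [Pi.sub_apply, Pi.smul_apply, Pi.single_apply, smul_eq_mul]
          split_ifs <;> linarith
        have h2 := hfb _ h1
        rw [map_sub, map_smul, smul_eq_mul] at h2
        simp only [hw]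
        linarith
      have h0 := hmem 0 le_rfl
      have hpos : 0 < f (fun _ => δ) - b := by linarith
      have h1 := hmem ((f (fun _ => δ) - b) / (- w x)) (div_nonneg hpos.le (by linarith))
      have h2 : (f (fun _ => δ) - b) / (- w x) * w x = -(f (fun _ => δ) - b) := by
        rw [div_neg, neg_mul, div_mul_cancel₀ _ hneg.ne]
      rw [h2] at h1
      linarith
    obtain ⟨z, hz⟩ := h w hw0
    have h1 : f (u z) < a := by
      refine hfa _ ⟨Pi.single z 1, single_mem_stdSimplex ℝ z, ?_⟩
      simp [hL, Fintype.linearCombination_apply_single]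
    have h2 : b < f (fun _ => δ) := hfb _ (fun x => le_rfl)
    have h3 : f (u z) = - ∑ x ∈ Finset.univ.filter (fun x => cut z x), w x := by
      rw [hexp, Finset.sum_filter, ← Finset.sum_neg_distrib]
      refine Finset.sum_congr rfl fun x _ => ?_
      simp only [hu, hw]
      split_ifs <;> simp
    have h4 : f (fun _ => δ) = - (δ * ∑ x, w x) := by
      rw [hexp, Finset.mul_sum, ← Finset.sum_neg_distrib]
      refine Finset.sum_congr rfl fun x _ => ?_
      simp only [hw]
      ring
    rw [h3] at h1
    rw [h4] at h2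
    linarith
  · rw [Set.not_disjoint_iff] at hdis
    obtain ⟨v, hvK, hvT⟩ := hdis
    obtain ⟨p, hp, rfl⟩ := hvK
    refine ⟨p, hp.1, hp.2, fun x => ?_⟩
    rw [← hLapp]
    exact hvT x

end Pool.Agent.KW
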