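import Pool.Agent.Helper99.KW.OP
import Pool.Agent.Helper87.KW.TA1
import Pool.Agent.Helper59.KW.TA2

/-!
# The operators of the regular representation

Piece RO of the MP_715b63_an development.
-/

open CategoryTheory Topology
open scoped ENNReal

namespace Pool.Agent.KW

universe u v

section RO
variable {X : Type u} [Groupoid.{u} X] [TopologicalSpace X] [TopologicalSpace (Arr X)]

omit [TopologicalSpace X] [TopologicalSpace (Arr X)] in
theorem regMat_fibre (f : Arr X → ℂ) {x : X} (g h : Fibre x) :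
    regMat f (arr g) (arr h) = f (quot g h) := by
  simp [regMat, arr, quot]

namespace RO

omit [TopologicalSpace X] [TopologicalSpace (Arr X)] in
theorem src_eq (f : Arr X → ℂ) (s t : Arr X) (h : regMat f s t ≠ 0) : t.src = s.src := by
  by_contra hne
  exact h (by simp [regMat, hne])

/-- an arrow with source `x` as an element of `G_x` -/
def toFib {x : X} (s : Arr X) (h : s.src = x) : Fibre x := ⟨s.tgt, eqToHom h.symm ≫ s.hom⟩

omit [TopologicalSpace X] [TopologicalSpace (Arr X)] in
theorem arr_toFib {x : X} (s : Arr X) (h : s.src = x) : arr (toFib s h) = s := by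
  subst h
  simp [arr, toFib]

omit [TopologicalSpace X] [TopologicalSpace (Arr X)] in
/-- the general form of a nonzero entry -/
theorem exists_fibre (f : Arr X → ℂ) (s t : Arr X) (h : regMat f s t ≠ 0) :
    ∃ (x : X) (g k : Fibre x), arr g = s ∧ arr k = t ∧ f (quot g k) = regMat f s t := by
  have hs := src_eq f s t h
  refine ⟨t.src, toFib s hs.symm, toFib t rfl, arr_toFib _ _, arr_toFib _ _, ?_⟩
  rw [← regMat_fibre f (toFib s hs.symm) (toFib t rfl), arr_toFib, arr_toFib]

omit [TopologicalSpace X] [TopologicalSpace (Arr X)] in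
theorem arr_injective {x : X} : Function.Injective (arr : Fibre x → Arr X) := by
  rintro ⟨y, g⟩ ⟨z, h⟩ hgh
  simp only [arr, Arr.mk.injEq, true_and] at hgh
  obtain ⟨rfl, h2⟩ := hgh
  simpa using h2

omit [TopologicalSpace X] [TopologicalSpace (Arr X)] in
theorem quot_left_inj {x : X} {g g' k : Fibre x} (h : quot g k = quot g' k) : g = g' := by
  obtain ⟨y, g⟩ := g
  obtain ⟨y', g'⟩ := g'
  simp only [quot, Arr.mk.injEq, true_and] at h
  obtain ⟨rfl, h2⟩ := h
  have h3 := eq_of_heq h2
  have h4 : g = g' := by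
    rw [← Category.id_comp g, ← Category.id_comp g', ← Groupoid.comp_inv k.2, Category.assoc,
      Category.assoc, h3]
  rw [h4]

omit [TopologicalSpace X] [TopologicalSpace (Arr X)] in
theorem quot_right_inj {x : X} {g k k' : Fibre x} (h : quot g k = quot g k') : k = k' := by
  obtain ⟨y, k⟩ := k
  obtain ⟨y', k'⟩ := k'
  simp only [quot, Arr.mk.injEq, true_and] at h
  obtain ⟨rfl, h2⟩ := h
  have h3 : Groupoid.inv k ≫ g.2 = Groupoid.inv k' ≫ g.2 := eq_of_heq h2
  have h4 : Groupoid.inv k = Groupoid.inv k' := by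
    rw [← Category.comp_id (Groupoid.inv k), ← Category.comp_id (Groupoid.inv k'),
      ← Groupoid.comp_inv g.2, ← Category.assoc, ← Category.assoc, h3]
  have h5 : k = k' := by
    rw [← Category.comp_id k, ← Groupoid.inv_comp k', ← h4, ← Category.assoc, Groupoid.comp_inv,
      Category.id_comp]
  rw [h5]

/-- columns of the matrix of a function supported in a bisection -/
theorem sparse_col (f : Arr X → ℂ) (hf : BisSupp f) (s s' t : Arr X) (h : regMat f s t ≠ 0)
    (h' : regMat f s' t ≠ 0) : s = s' := by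
  obtain ⟨U, -, hU, hsrc, -⟩ := hf
  have hs := src_eq f s t h
  have hs' := src_eq f s' t h'
  have e1 : regMat f s t = f (quot (toFib s hs.symm) (toFib t rfl)) := by
    rw [← regMat_fibre f (toFib s hs.symm) (toFib t rfl), arr_toFib, arr_toFib]
  have e2 : regMat f s' t = f (quot (toFib s' hs'.symm) (toFib t rfl)) := by
    rw [← regMat_fibre f (toFib s' hs'.symm) (toFib t rfl), arr_toFib, arr_toFib]
  rw [e1] at h
  rw [e2] at h'
  have h3 := hsrc (hU (subset_tsupport f h)) (hU (subset_tsupport f h')) rfl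
  have h4 := quot_left_inj h3
  rw [← arr_toFib s hs.symm, ← arr_toFib s' hs'.symm, h4]

/-- rows of the matrix of a function supported in a bisection -/
theorem sparse_row (f : Arr X → ℂ) (hf : BisSupp f) (s t t' : Arr X) (h : regMat f s t ≠ 0)
    (h' : regMat f s t' ≠ 0) : t = t' := by
  obtain ⟨U, -, hU, -, htgt⟩ := hf
  have hs := src_eq f s t h
  have hs' := src_eq f s t' h'
  have e1 : regMat f s t = f (quot (toFib s rfl) (toFib t hs)) := by
    rw [← regMat_fibre f (toFib s rfl) (toFib t hs), arr_toFib, arr_toFib]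
  have e2 : regMat f s t' = f (quot (toFib s rfl) (toFib t' hs')) := by
    rw [← regMat_fibre f (toFib s rfl) (toFib t' hs'), arr_toFib, arr_toFib]
  rw [e1] at h
  rw [e2] at h'
  have h3 := htgt (hU (subset_tsupport f h)) (hU (subset_tsupport f h')) rfl
  have h4 := quot_right_inj h3
  rw [← arr_toFib t hs, ← arr_toFib t' hs', h4]

omit [TopologicalSpace X] [TopologicalSpace (Arr X)] in
theorem norm_regMat_le (f : Arr X → ℂ) (C : ℝ) (hC : 0 ≤ C) (hf : ∀ g, ‖f g‖ ≤ C)
    (s t : Arr X) : ‖regMat f s t‖ ≤ C := by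
  unfold regMat
  split_ifs with h
  · exact hf _
  · simpa using hC

omit [TopologicalSpace X] [TopologicalSpace (Arr X)] in
theorem regMat_sum {r : ℕ} (f : Arr X → ℂ) (ξ : Fin r → Arr X → ℂ)
    (h : ∀ g, f g = ∑ i, ξ i g) (s t : Arr X) : regMat f s t = ∑ i, regMat (ξ i) s t := by
  unfold regMat
  split_ifs with hst
  · exact h _
  · simp

/-- the operator `λ(f) ⊗ b`, in all universes -/
theorem exists_regOp_aux [EtaleGroupoid X] (f : Arr X → ℂ) (hf : IsCc f) :
    ∃ C : ℝ, ∀ (H : Type v) [NormedAddCommGroup H] [InnerProductSpace ℂ H] [CompleteSpace H]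
      (b : H →L[ℂ] H), ∃ T : L2H (Arr X) H →L[ℂ] L2H (Arr X) H,
        (∀ s t, blk T s t = regMat f s t • b) ∧ ‖T‖ ≤ C * ‖b‖ := by
  obtain ⟨r, ξ, hξ, hsum⟩ := exists_bisection_decomp f hf
  have hbd : ∀ i, ∃ C : ℝ, ∀ g, ‖ξ i g‖ ≤ C := fun i =>
    (hξ i).1.2.exists_bound_of_continuous (hξ i).1.1
  choose C hC using hbd
  refine ⟨∑ i, |C i|, fun H _ _ _ b => ?_⟩
  have hop : ∀ i, ∃ T : L2H (Arr X) H →L[ℂ] L2H (Arr X) H,
      (∀ s t, blk T s t = regMat (ξ i) s t • b) ∧ ‖T‖ ≤ |C i| * ‖b‖ := by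
    intro i
    refine exists_op_of_sparse (fun s t => regMat (ξ i) s t • b) (|C i| * ‖b‖) (by positivity)
      ?_ ?_ ?_
    · intro s t t' h h'
      exact sparse_row (ξ i) (hξ i).2 s t t' (fun h0 => h (by simp [h0]))
        (fun h0 => h' (by simp [h0]))
    · intro s s' t h h'
      exact sparse_col (ξ i) (hξ i).2 s s' t (fun h0 => h (by simp [h0]))
        (fun h0 => h' (by simp [h0]))
    · intro s t
      rw [norm_smul]
      refine mul_le_mul_of_nonneg_right ?_ (norm_nonneg _)
      exact norm_regMat_le (ξ i) |C i| (abs_nonneg _) (fun g => (hC i g).trans (le_abs_self _)) s t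
  choose T hT hTn using hop
  refine ⟨∑ i, T i, fun s t => ?_, ?_⟩
  · rw [blk_sum, regMat_sum f ξ hsum, Finset.sum_smul]
    exact Finset.sum_congr rfl fun i _ => hT i s t
  · rw [Finset.sum_mul]
    exact (norm_sum_le _ _).trans (Finset.sum_le_sum fun i _ => hTn i)

end RO

theorem exists_regOp [EtaleGroupoid X] (f : Arr X → ℂ) (hf : IsCc f) :
    ∃ T ∈ redAlg X, ∀ s t, coef T s t = regMat f s t := by
  obtain ⟨C, hC⟩ := RO.exists_regOp_aux f hf
  obtain ⟨T, hT, -⟩ := hC ℂ (1 : ℂ →L[ℂ] ℂ)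
  have hcoef : ∀ s t, coef T s t = regMat f s t := by
    intro s t
    have h1 := (blk_eq_coef T s t).symm.trans (hT s t)
    have h2 := congrArg (fun L : ℂ →L[ℂ] ℂ => L 1) h1
    simpa using h2
  refine ⟨T, ?_, hcoef⟩
  exact NonUnitalStarSubalgebra.le_topologicalClosure _
    (NonUnitalStarAlgebra.subset_adjoin ℂ _ ⟨f, hf, hcoef⟩)

/-- rows and columns are finitely supported -/
theorem regMat_finite [EtaleGroupoid X] (f : Arr X → ℂ) (hf : IsCc f) (t : Arr X) :
    {s | regMat f s t ≠ 0}.Finite ∧ {s | regMat f t s ≠ 0}.Finite := by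
  obtain ⟨h1, h2⟩ := finite_quot_of_compact (tsupport f) hf.2 (RO.toFib t rfl)
  constructor
  · refine (h1.image arr).subset ?_
    intro s hs
    have hst := RO.src_eq f s t hs
    refine ⟨RO.toFib s hst.symm, ?_, RO.arr_toFib _ _⟩
    refine subset_tsupport f ?_
    show f (quot _ _) ≠ 0
    rw [← regMat_fibre f (RO.toFib s hst.symm) (RO.toFib t rfl), RO.arr_toFib, RO.arr_toFib]
    exact hs
  · refine (h2.image arr).subset ?_
    intro s hs
    have hst := RO.src_eq f t s hs
    refine ⟨RO.toFib s hst, ?_, RO.arr_toFib _ _⟩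
    refine subset_tsupport f ?_
    show f (quot _ _) ≠ 0
    rw [← regMat_fibre f (RO.toFib t rfl) (RO.toFib s hst), RO.arr_toFib, RO.arr_toFib]
    exact hs

/-- the operator `λ(f) ⊗ b` -/
theorem exists_regOp_tensor [EtaleGroupoid X] (f : Arr X → ℂ) (hf : IsCc f) :
    ∃ C : ℝ, ∀ (H : Type u) [NormedAddCommGroup H] [InnerProductSpace ℂ H] [CompleteSpace H]
      (b : H →L[ℂ] H), ∃ T : L2H (Arr X) H →L[ℂ] L2H (Arr X) H,
        (∀ s t, blk T s t = regMat f s t • b) ∧ ‖T‖ ≤ C * ‖b‖ :=
  RO.exists_regOp_aux f hf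

end RO

end Pool.Agent.KW
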